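import Pool.Agent.H98.Sch3

namespace Pool.Agent.Results.MP_c3854d_co.Single

open MvPolynomial Finset

/-- `e i j`: elementary symmetric polynomial of degree `j` in the first `i` variables
(`x_1, x_2, ...` are `X 0, X 1, ...`). -/
noncomputable def e (i j : ℕ) : MvPolynomial ℕ ℤ :=
  ∑ s ∈ powersetCard j (range i), ∏ k ∈ s, X k

/-- The standard elementary monomial of a finitely supported sequence. -/
noncomputable def sem (a : ℕ →₀ ℕ) : MvPolynomial ℕ ℤ := a.prod e

/-- The length (number of inversions) of `w ∈ S_n`. -/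
def len (n : ℕ) (w : Equiv.Perm ℕ) : ℕ :=
  ((range n ×ˢ range n).filter fun p => p.1 < p.2 ∧ w p.2 < w p.1).card

/-- `IsSch n w f`: `f` is obtained as the Schubert polynomial of `w ∈ S_n` by the defining
recursion from the longest element; `S_n` acts on `0, ..., n - 1` and fixes the rest of `ℕ`. -/
inductive IsSch (n : ℕ) : Equiv.Perm ℕ → MvPolynomial ℕ ℤ → Prop
  | top (w : Equiv.Perm ℕ) (h1 : ∀ i < n, w i = n - 1 - i) (h2 : ∀ i, n ≤ i → w i = i) :
      IsSch n w (∏ i ∈ range n, X i ^ (n - 1 - i))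
  | step (w : Equiv.Perm ℕ) (f g : MvPolynomial ℕ ℤ) (i : ℕ) (hi : i + 1 < n)
      (hl : len n (w * Equiv.swap i (i + 1)) + 1 = len n w) (hf : IsSch n w f)
      (hg : (X i - X (i + 1)) * g = f - rename (Equiv.swap i (i + 1)) f) :
      IsSch n (w * Equiv.swap i (i + 1)) g

open Pool.Agent.H98 in
lemma iff_sc {n : ℕ} {w : Equiv.Perm ℕ} {f : MvPolynomial ℕ ℤ} : IsSch n w f ↔ Sch.Sc n w f := by
  constructor
  · intro h
    induction h with
    | top w h1 h2 => exact Sch.Sc.top w h1 h2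
    | step w f g i hi hl hf hg ih =>
      have : Sch.D i f = g := (Sch.dX ℤ i).uniq hg
      rw [← this]
      exact Sch.Sc.step w f i hi ((Sch.len_iff hi).1 hl) ih
  · intro h
    induction h with
    | top w h1 h2 => exact IsSch.top w h1 h2
    | step w f i hi hd hf ih =>
      exact IsSch.step w f _ i hi (Sch.len_desc hi hd) ih ((Sch.dX ℤ i).spec f)

open Pool.Agent.H98 in
theorem result (n : ℕ) (w : Equiv.Perm ℕ) (hw : ∀ i, n ≤ i → w i = i) :
    (∃! f, IsSch n w f) ∧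
    ∀ f, IsSch n w f → ∀ c : (ℕ →₀ ℕ) →₀ ℤ, (∀ a ∈ c.support, ∀ i, a i ≤ i) →
      f = c.sum (fun a k => k • sem a) → (∀ a, 0 ≤ c a) →
      ∃ a : ℕ →₀ ℕ, (∀ i, a i ≤ i) ∧ f = sem a := by
  constructor
  · obtain ⟨f, hf⟩ := Sch.exi w hw
    exact ⟨f, iff_sc.2 hf, fun g hg => Sch.uni w _ _ (iff_sc.1 hg) hf⟩
  · intro f hf c hc he h0
    exact Sch.main ⟨n, iff_sc.1 hf⟩ c hc he h0

end Pool.Agent.Results.MP_c3854d_co.Single
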